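import Pool.Agent.Helper42.RZ2.Final
import Pool.Agent.Helper28.RZL.Cmp

/-!
# MP_e739cf_an: two-sided bounds of the second order constant

For every `0 < s < 2` the minimal Riesz energy of `N` distinct points of the unit sphere of `ℝ³`
satisfies `E_s(N) - (2 ^ (1 - s) / (2 - s)) N² = c N ^ (1 + s / 2) (1 + o(1))`, and the constant `c`
is the conjectured one up to a relative error of at most `s (2 - s) / 10 ^ 4`:
`(1 + s (2 - s) / 10 ^ 4) E ≤ (4 π) ^ (s / 2) c ≤ E < 0`, where `E` is the Riesz energy of the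
hexagonal lattice of density one.
-/

set_option autoImplicit false

open Filter Topology MeasureTheory

namespace Pool.Agent.Results.MP_e739cf_an.HexagonalBounds

/-- the Riesz energy of a finite family of points: sum over ordered pairs of distinct indices -/
noncomputable def energy (s : ℝ) {N : ℕ} (x : Fin N → EuclideanSpace ℝ (Fin 3)) : ℝ :=
  ∑ i, ∑ j, if i = j then 0 else ‖x i - x j‖ ^ (-s)

/-- the minimal Riesz energy of `N` distinct points of the unit sphere -/
noncomputable def minEnergy (s : ℝ) (N : ℕ) : ℝ :=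
  sInf {e | ∃ x : Fin N → EuclideanSpace ℝ (Fin 3),
    Function.Injective x ∧ (∀ i, ‖x i‖ = 1) ∧ energy s x = e}

/-- the length of the shortest vectors of the hexagonal lattice of density one -/
noncomputable def hexLength : ℝ := Real.sqrt (2 / Real.sqrt 3)

/-- a point of the hexagonal lattice of density one -/
noncomputable def hexPoint (k : ℤ × ℤ) : ℂ :=
  ⟨hexLength * (k.1 + k.2 / 2), hexLength * (Real.sqrt 3 / 2 * k.2)⟩

/-- the damped energy per point of the hexagonal lattice of density one, with the interaction with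
the uniform background of density one subtracted -/
noncomputable def dampedHexEnergy (s w : ℝ) : ℝ :=
  (∑' k : ℤ × ℤ, if k = 0 then 0 else ‖hexPoint k‖ ^ (-s) * Real.exp (-w * ‖hexPoint k‖)) -
    ∫ x : ℂ, ‖x‖ ^ (-s) * Real.exp (-w * ‖x‖)

/-- the theta function of the hexagonal lattice of density one, without the constant term -/
noncomputable def hexTheta (t : ℝ) : ℝ :=
  ∑' k : ℤ × ℤ, if k = 0 then 0 else Real.exp (-(Real.pi * t * ‖hexPoint k‖ ^ 2))

theorem minEnergy_eq (s : ℝ) (N : ℕ) : minEnergy s N = Helper42.RZ.minE s N := by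
  have h : ∀ x : Fin N → EuclideanSpace ℝ (Fin 3), energy s x =
      Helper42.RZ.PS x (Helper42.RZ.K s) := by
    intro x
    have h1 : (Finset.univ : Finset (Fin N)).offDiag =
        (Finset.univ : Finset (Fin N × Fin N)).filter (fun p => ¬ p.1 = p.2) := by
      ext p
      simp
    rw [energy, Helper42.RZ.PS, ← Finset.sum_product', Finset.univ_product_univ, h1,
      Finset.sum_filter]
    refine Finset.sum_congr rfl fun p _ => ?_
    by_cases hp : p.1 = p.2
    · simp [hp]
    · simp [hp, Helper42.RZ.K]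
  rw [minEnergy, Helper42.RZ.minE]
  simp only [h, Helper42.RZ.Conf, and_assoc]

theorem hexPoint_eq (k : ℤ × ℤ) :
    hexPoint k = Helper42.RZ2.lv Helper28.RZL.ha Helper28.RZL.hb k := by
  apply Complex.ext
  · simp only [hexPoint, hexLength, Helper42.RZ2.lv, Helper28.RZL.ha, Helper28.RZL.hb,
      Helper28.RZL.hg, Complex.add_re, Complex.mul_re, Complex.intCast_re, Complex.intCast_im]
    ring
  · simp only [hexPoint, hexLength, Helper42.RZ2.lv, Helper28.RZL.ha, Helper28.RZL.hb,
      Helper28.RZL.hg, Complex.add_im, Complex.mul_im, Complex.intCast_re, Complex.intCast_im]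
    ring

theorem hexTheta_eq (t : ℝ) : hexTheta t = Helper28.RZL.th t := by
  rw [hexTheta, Helper28.RZL.th]
  refine tsum_congr fun k => ?_
  have h := Helper28.RZL.hex_norm k
  rw [← hexPoint_eq] at h
  rw [← h]
  congr 3
  ring

theorem dampedHexEnergy_eq {s : ℝ} (h0 : 0 < s) (h2 : s < 2) {w : ℝ} (hw : 0 < w) :
    dampedHexEnergy s w = Helper42.RZ2.AS s w Helper28.RZL.ha Helper28.RZL.hb
      (fun _ : Fin 1 => 0) := by
  rw [dampedHexEnergy, Helper42.RZ2.AS, ← Helper42.RZ2.integral_ph h2 hw]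
  simp only [Finset.univ_unique, Finset.sum_singleton, Nat.cast_one, inv_one, one_mul, sub_self,
    Helper42.RZ2.LS, zero_add]
  have e1 : ∀ k : ℤ × ℤ, (if k = 0 then 0 else ‖hexPoint k‖ ^ (-s) *
      Real.exp (-w * ‖hexPoint k‖)) =
      Helper42.RZ2.ph s w ‖Helper42.RZ2.lv Helper28.RZL.ha Helper28.RZL.hb k‖ := by
    intro k
    by_cases hk : k = 0
    · rw [if_pos hk, hk]
      have : Helper42.RZ2.lv Helper28.RZL.ha Helper28.RZL.hb 0 = 0 := by
        simp [Helper42.RZ2.lv]
      rw [this, norm_zero, Helper42.RZ2.ph_zero h0]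
    · rw [if_neg hk, hexPoint_eq]
      rfl
  rw [tsum_congr e1]
  rfl

/-- For `0 < s < 2` the second order term of the minimal Riesz energy of `N` points of the unit
sphere is `c N ^ (1 + s / 2)`, where `(4 π) ^ (s / 2) c` lies between
`(1 + s (2 - s) / 10 ^ 4) E` and `E`, the Riesz energy of the hexagonal lattice of density one. -/
theorem result (s : ℝ) (h0 : 0 < s) (h2 : s < 2) :
    ∃ E c : ℝ, Tendsto (fun w => dampedHexEnergy s w) (𝓝[>] 0) (𝓝 E) ∧
      E = Real.pi ^ (s / 2) / Real.Gamma (s / 2) *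
        ((∫ t in Set.Ioi (1 : ℝ), (t ^ (s / 2 - 1) + t ^ (-(s / 2))) * hexTheta t) -
          4 / (s * (2 - s))) ∧
      Tendsto (fun N : ℕ => (minEnergy s N - 2 ^ (1 - s) / (2 - s) * (N : ℝ) ^ 2) /
        (N : ℝ) ^ (1 + s / 2)) atTop (𝓝 c) ∧
      (1 + s * (2 - s) / 10 ^ 4) * E ≤ (4 * Real.pi) ^ (s / 2) * c ∧
      (4 * Real.pi) ^ (s / 2) * c ≤ E ∧ E < 0 := by
  obtain ⟨c, hc0, hc⟩ := Helper42.RZ.exists_limit h0 h2
  have hglb := Helper42.RZ2.isGLB h0 h2 hc0 hc
  have hlim := Helper28.RZL.AS_lim h0 h2 Helper28.RZL.hex_per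
  refine ⟨Helper28.RZL.EH s, c, ?_, ?_, ?_, ?_, ?_, Helper28.RZL.EH_neg h0 h2⟩
  · refine hlim.congr' ?_
    filter_upwards [self_mem_nhdsWithin] with w hw
    exact (dampedHexEnergy_eq h0 h2 hw).symm
  · rw [Helper28.RZL.hex_form h0 h2, Helper28.RZL.IH]
    simp only [hexTheta_eq]
    ring
  · simp only [minEnergy_eq]
    exact hc
  · refine hglb.2 ?_
    rintro E ⟨m, a, b, y, hY, hE⟩
    have h1 := Helper28.RZL.cmp (Helper28.RZL.tp hY) h0 h2
    have h3 := tendsto_nhds_unique hE (Helper28.RZL.AS_lim h0 h2 hY)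
    rw [h3]
    norm_num at h1 ⊢
    exact h1
  · exact hglb.1 ⟨1, Helper28.RZL.ha, Helper28.RZL.hb, fun _ => 0, Helper28.RZL.hex_per, hlim⟩

end Pool.Agent.Results.MP_e739cf_an.HexagonalBounds
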