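import Pool.Agent.Helper42.RZ2.Final

/-!
# MP_e739cf_an: the second order term of the minimal Riesz energy on the sphere

For every `0 < s < 2` the minimal Riesz energy of `N` distinct points of the unit sphere of `ℝ³`
satisfies `E_s(N) - (2 ^ (1 - s) / (2 - s)) N² = c N ^ (1 + s / 2) (1 + o(1))` with a real constant
`c < 0`, and `(4 π) ^ (s / 2) c` is the infimum of the Riesz energies per point of the periodic
configurations of density one in the plane. The energy of a periodic configuration is a lattice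
sum with the uniform background subtracted, in the sense of Abel summation.
-/

set_option autoImplicit false

open Filter Topology MeasureTheory

namespace Pool.Agent.Results.MP_e739cf_an.PeriodicInfimum

/-- the Riesz energy of a finite family of points: sum over ordered pairs of distinct indices -/
noncomputable def energy (s : ℝ) {N : ℕ} (x : Fin N → EuclideanSpace ℝ (Fin 3)) : ℝ :=
  ∑ i, ∑ j, if i = j then 0 else ‖x i - x j‖ ^ (-s)

/-- the minimal Riesz energy of `N` distinct points of the unit sphere -/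
noncomputable def minEnergy (s : ℝ) (N : ℕ) : ℝ :=
  sInf {e | ∃ x : Fin N → EuclideanSpace ℝ (Fin 3),
    Function.Injective x ∧ (∀ i, ‖x i‖ = 1) ∧ energy s x = e}

/-- a vector of the lattice spanned by `a` and `b` -/
noncomputable def latticeVector (a b : ℂ) (k : ℤ × ℤ) : ℂ := k.1 * a + k.2 * b

/-- The points `y i + k₁ a + k₂ b` (`i < m`, `k₁ k₂` integers) form a periodic configuration of the
plane `ℂ` of density one: the area of a cell of the lattice spanned by `a` and `b` is `m ≥ 1`, and
the `y i` are distinct modulo the lattice. -/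
def IsPeriodic {m : ℕ} (a b : ℂ) (y : Fin m → ℂ) : Prop :=
  1 ≤ m ∧ |a.re * b.im - a.im * b.re| = m ∧
    ∀ i j, ∀ k : ℤ × ℤ, y i - y j + latticeVector a b k = 0 → i = j

/-- the interaction `|x| ^ (-s) exp (- w |x|)`, set to `0` at `x = 0` -/
noncomputable def damped (s w : ℝ) (x : ℂ) : ℝ :=
  if x = 0 then 0 else ‖x‖ ^ (-s) * Real.exp (-w * ‖x‖)

/-- the damped energy per point of a periodic configuration of density one, with the interaction
with the uniform background of density one subtracted -/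
noncomputable def dampedEnergy (s w : ℝ) {m : ℕ} (a b : ℂ) (y : Fin m → ℂ) : ℝ :=
  (∑ i, ∑ j, ∑' k : ℤ × ℤ, damped s w (y i - y j + latticeVector a b k)) / m -
    ∫ x : ℂ, damped s w x

/-- `E` is the Riesz energy per point of the periodic configuration, that is the limit of the
damped energies as the damping tends to `0` -/
def HasEnergy (s : ℝ) {m : ℕ} (a b : ℂ) (y : Fin m → ℂ) (E : ℝ) : Prop :=
  Tendsto (fun w => dampedEnergy s w a b y) (𝓝[>] 0) (𝓝 E)

theorem minEnergy_eq (s : ℝ) (N : ℕ) : minEnergy s N = Helper42.RZ.minE s N := by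
  have h : ∀ x : Fin N → EuclideanSpace ℝ (Fin 3), energy s x =
      Helper42.RZ.PS x (Helper42.RZ.K s) := by
    intro x
    have h1 : (Finset.univ : Finset (Fin N)).offDiag =
        (Finset.univ : Finset (Fin N × Fin N)).filter (fun p => ¬ p.1 = p.2) := by
      ext p
      simp
    rw [energy, Helper42.RZ.PS, ← Finset.sum_product', Finset.univ_product_univ, h1,
      Finset.sum_filter]
    refine Finset.sum_congr rfl fun p _ => ?_
    by_cases hp : p.1 = p.2
    · simp [hp]
    · simp [hp, Helper42.RZ.K]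
  rw [minEnergy, Helper42.RZ.minE]
  simp only [h, Helper42.RZ.Conf, and_assoc]

theorem damped_eq {s : ℝ} (h0 : 0 < s) (w : ℝ) (x : ℂ) :
    damped s w x = Helper42.RZ2.ph s w ‖x‖ := by
  rw [damped]
  by_cases hx : x = 0
  · rw [if_pos hx, hx, norm_zero, Helper42.RZ2.ph_zero h0]
  · rw [if_neg hx]
    rfl

theorem isPeriodic_iff {m : ℕ} {a b : ℂ} {y : Fin m → ℂ} :
    IsPeriodic a b y ↔ Helper42.RZ2.Per m a b y := Iff.rfl

theorem dampedEnergy_eq {s : ℝ} (h0 : 0 < s) (h2 : s < 2) {w : ℝ} (hw : 0 < w) {m : ℕ} (a b : ℂ)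
    (y : Fin m → ℂ) : dampedEnergy s w a b y = Helper42.RZ2.AS s w a b y := by
  rw [dampedEnergy, Helper42.RZ2.AS]
  simp only [damped_eq h0]
  rw [Helper42.RZ2.integral_ph h2 hw, div_eq_inv_mul]
  rfl

theorem hasEnergy_iff {s : ℝ} (h0 : 0 < s) (h2 : s < 2) {m : ℕ} {a b : ℂ} {y : Fin m → ℂ} {E : ℝ} :
    HasEnergy s a b y E ↔
      Tendsto (fun w => Helper42.RZ2.AS s w a b y) (𝓝[>] 0) (𝓝 E) := by
  refine tendsto_congr' ?_
  filter_upwards [self_mem_nhdsWithin] with w hw
  exact dampedEnergy_eq h0 h2 hw a b y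

/-- For `0 < s < 2` the second order term of the minimal Riesz energy of `N` points of the unit
sphere is of the exact form `c N ^ (1 + s / 2)` with `c < 0`; every periodic configuration of
density one of the plane has an energy, and `(4 π) ^ (s / 2) c` is the infimum of these energies. -/
theorem result (s : ℝ) (h0 : 0 < s) (h2 : s < 2) :
    (∀ (m : ℕ) (a b : ℂ) (y : Fin m → ℂ), IsPeriodic a b y → ∃ E, HasEnergy s a b y E) ∧
    ∃ c : ℝ, c < 0 ∧
      Tendsto (fun N : ℕ => (minEnergy s N - 2 ^ (1 - s) / (2 - s) * (N : ℝ) ^ 2) /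
        (N : ℝ) ^ (1 + s / 2)) atTop (𝓝 c) ∧
      IsGLB {E : ℝ | ∃ (m : ℕ) (a b : ℂ) (y : Fin m → ℂ), IsPeriodic a b y ∧ HasEnergy s a b y E}
        ((4 * Real.pi) ^ (s / 2) * c) := by
  refine ⟨fun m a b y hY => ?_, ?_⟩
  · obtain ⟨E, hE⟩ := Helper42.RZ2.AS_tendsto h0 h2 (isPeriodic_iff.1 hY)
    exact ⟨E, (hasEnergy_iff h0 h2).2 hE⟩
  · obtain ⟨c, hc0, hc⟩ := Helper42.RZ.exists_limit h0 h2
    refine ⟨c, hc0, ?_, ?_⟩
    · simp only [minEnergy_eq]
      exact hc
    · have h := Helper42.RZ2.isGLB h0 h2 hc0 hc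
      have hset : {E : ℝ | ∃ (m : ℕ) (a b : ℂ) (y : Fin m → ℂ), IsPeriodic a b y ∧
          HasEnergy s a b y E} = Helper42.RZ2.PE s := by
        ext E
        constructor
        · rintro ⟨m, a, b, y, hY, hE⟩
          exact ⟨m, a, b, y, isPeriodic_iff.1 hY, (hasEnergy_iff h0 h2).1 hE⟩
        · rintro ⟨m, a, b, y, hY, hE⟩
          exact ⟨m, a, b, y, isPeriodic_iff.2 hY, (hasEnergy_iff h0 h2).2 hE⟩
      rw [hset]
      exact h

end Pool.Agent.Results.MP_e739cf_an.PeriodicInfimum
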