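import Pool.Agent.Helper51.RT.J2

/-!
# MP_e739cf_an: a power saving remainder for the minimal Riesz energy on the sphere

For every `0 < s < 2` the minimal Riesz energy of `N` distinct points of the unit sphere of `ℝ³`
satisfies `E_s(N) = (2 ^ (1 - s) / (2 - s)) N² + c N ^ (1 + s / 2) + O (N ^ (1 + s / 2 - θ))` with a
real constant `c < 0` and `θ = min (min s 1 / 16) ((2 - s) / 4) > 0`.
-/

set_option autoImplicit false

namespace Pool.Agent.Results.MP_e739cf_an.PowerSavingRemainder

/-- the Riesz energy of a finite family of points: sum over ordered pairs of distinct indices -/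
noncomputable def energy (s : ℝ) {N : ℕ} (x : Fin N → EuclideanSpace ℝ (Fin 3)) : ℝ :=
  ∑ i, ∑ j, if i = j then 0 else ‖x i - x j‖ ^ (-s)

/-- the minimal Riesz energy of `N` distinct points of the unit sphere -/
noncomputable def minEnergy (s : ℝ) (N : ℕ) : ℝ :=
  sInf {e | ∃ x : Fin N → EuclideanSpace ℝ (Fin 3),
    Function.Injective x ∧ (∀ i, ‖x i‖ = 1) ∧ energy s x = e}

theorem minEnergy_eq (s : ℝ) (N : ℕ) : minEnergy s N = Helper42.RZ.minE s N := by
  have h : ∀ x : Fin N → EuclideanSpace ℝ (Fin 3), energy s x =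
      Helper42.RZ.PS x (Helper42.RZ.K s) := by
    intro x
    have h1 : (Finset.univ : Finset (Fin N)).offDiag =
        (Finset.univ : Finset (Fin N × Fin N)).filter (fun p => ¬ p.1 = p.2) := by
      ext p
      simp
    rw [energy, Helper42.RZ.PS, ← Finset.sum_product', Finset.univ_product_univ, h1,
      Finset.sum_filter]
    refine Finset.sum_congr rfl fun p _ => ?_
    by_cases hp : p.1 = p.2
    · simp [hp]
    · simp [hp, Helper42.RZ.K]
  rw [minEnergy, Helper42.RZ.minE]
  simp only [h, Helper42.RZ.Conf, and_assoc]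

/-- For `0 < s < 2` the minimal Riesz energy of `N` points of the unit sphere is
`(2 ^ (1 - s) / (2 - s)) N² + c N ^ (1 + s / 2)` with `c < 0`, up to a remainder which is smaller
than the second term by a power of `N`. -/
theorem result (s : ℝ) (h0 : 0 < s) (h2 : s < 2) :
    ∃ c B : ℝ, c < 0 ∧ ∀ N : ℕ, 1 ≤ N →
      |minEnergy s N - 2 ^ (1 - s) / (2 - s) * (N : ℝ) ^ 2 - c * (N : ℝ) ^ (1 + s / 2)| ≤
        B * (N : ℝ) ^ (1 + s / 2 - min (min s 1 / 16) ((2 - s) / 4)) := by
  obtain ⟨c, B, hc, -, H⟩ := Helper51.RT.rate_all h0 h2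
  refine ⟨c, B, hc, fun N hN => ?_⟩
  rw [minEnergy_eq]
  exact H N hN

end Pool.Agent.Results.MP_e739cf_an.PowerSavingRemainder
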